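import Pool.Agent.Q80.Disc.Inertia

namespace Pool.Agent.Q80.Disc

open MvPolynomial Pool.Agent.Helper56.Disc

variable {n d : ℕ}

theorem dF_isHomogeneous (i : Fin n) : (dF n d i).IsHomogeneous (d - 1) :=
  (form_isHomogeneous _).pderiv

theorem component_mul_eq_zero {R σ : Type*} [CommRing R] (p F : MvPolynomial σ R) (j m : ℕ)
    (hF : F.IsHomogeneous m) (h : j < m) : homogeneousComponent j (p * F) = 0 := by
  conv_lhs => rw [← sum_homogeneousComponent p]
  rw [Finset.sum_mul, map_sum]
  apply Finset.sum_eq_zero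
  intro i _
  have h1 : (homogeneousComponent i p * F).IsHomogeneous (i + m) :=
    (homogeneousComponent_isHomogeneous i p).mul hF
  rw [homogeneousComponent_of_mem h1, if_neg (by omega)]

theorem component_mem (p : MvPolynomial (Fin n) (A n d)) (hp : p ∈ JJ n d) (j : ℕ) :
    homogeneousComponent j p ∈ JJ n d := by
  unfold JJ at hp
  rw [← Set.image_univ] at hp
  obtain ⟨c, _, hc⟩ := exists_coeffs_of_mem_span_image _ _ _ hp
  rw [hc, map_sum]
  refine Ideal.sum_mem _ fun i _ => ?_
  by_cases hj : j < d - 1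
  · rw [component_mul_eq_zero _ _ _ _ (dF_isHomogeneous i) hj]
    exact Ideal.zero_mem _
  · obtain ⟨a, rfl⟩ : ∃ a, j = a + (d - 1) := ⟨j - (d - 1), by omega⟩
    rw [homogeneousComponent_mul_of_isHomogeneous _ _ _ _ (dF_isHomogeneous i)]
    exact Ideal.mul_mem_left _ _ (Ideal.subset_span ⟨i, rfl⟩)

theorem euler (i : Fin n) : ∑ j, pderiv j (dF n d i) * X j =
    ((d - 1 : ℕ) : MvPolynomial (Fin n) (A n d)) * dF n d i := by
  have := (dF_isHomogeneous (d := d) i).sum_X_mul_pderiv
  rw [nsmul_eq_mul] at this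
  rw [← this]
  apply Finset.sum_congr rfl
  intro j _
  ring

open Matrix in
theorem X_mul_hess_mem (i : Fin n) : X i * hess (gen n d) ∈ JJ n d := by
  set M : Matrix (Fin n) (Fin n) (MvPolynomial (Fin n) (A n d)) :=
    Matrix.of fun i j => pderiv j (pderiv i (gen n d)) with hM
  have h1 : (M.adjugate * M).mulVec X = (M.det • (1 : Matrix (Fin n) (Fin n)
      (MvPolynomial (Fin n) (A n d)))).mulVec X := by
    rw [adjugate_mul]
  rw [← mulVec_mulVec, smul_mulVec, one_mulVec] at h1
  have h2 := congrFun h1 i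
  rw [Pi.smul_apply, smul_eq_mul] at h2
  have h3 : X i * hess (gen n d) = M.det * X i := by
    rw [mul_comm]; rfl
  rw [h3, ← h2]
  have h4 : (M.adjugate.mulVec (M.mulVec X)) i = ∑ j, M.adjugate i j * (M.mulVec X) j := rfl
  rw [h4]
  refine Ideal.sum_mem _ fun j _ => Ideal.mul_mem_left _ _ ?_
  have h5 : (M.mulVec X) j = ∑ l, pderiv l (dF n d j) * X l := rfl
  rw [h5, euler]
  exact Ideal.mul_mem_left _ _ (Ideal.subset_span ⟨j, rfl⟩)

open Matrix in
theorem socle_ideal (hd : 2 ≤ d) (x : MvPolynomial (Fin n) (A n d))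
    (hx : ∀ i, x * X i ∈ JJ n d) : ∃ c, x - c * hess (gen n d) ∈ JJ n d := by
  have hu : (C (C (((d - 1 : ℕ) : ℂ)⁻¹)) : MvPolynomial (Fin n) (A n d)) *
      ((d - 1 : ℕ) : MvPolynomial (Fin n) (A n d)) = 1 := by
    have : ((d - 1 : ℕ) : MvPolynomial (Fin n) (A n d)) = C (C ((d - 1 : ℕ) : ℂ)) := by simp
    rw [this, ← map_mul, ← map_mul, inv_mul_cancel₀]
    · simp
    · rw [Nat.cast_ne_zero]; omega
  set u := (C (C (((d - 1 : ℕ) : ℂ)⁻¹)) : MvPolynomial (Fin n) (A n d)) with hu'
  set H : Matrix (Fin n) (Fin n) (MvPolynomial (Fin n) (A n d)) :=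
    Matrix.of fun i j => pderiv j (pderiv i (gen n d)) with hH
  have hK : ∀ k : Fin n, (⊥ : Ideal (MvPolynomial (Fin n) (A n d))) ⊔
      Ideal.span (dF n d '' Set.Ioi k) ⊔ Ideal.span (X '' Set.Iio k) =
      KK n d (Set.Iio k) ((Finset.Ioi k : Finset (Fin n)) : Set (Fin n)) := by
    intro k
    rw [bot_sup_eq, sup_comm, Finset.coe_Ioi]
    rfl
  have hc : ∀ k : Fin n, NZD (KK n d (Set.Iio k) ((Finset.Ioi k : Finset (Fin n)) : Set (Fin n))) (X k) ∧
      NZD (KK n d (Set.Iio k) ((Finset.Ioi k : Finset (Fin n)) : Set (Fin n))) (dF n d k) := by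
    intro k
    refine nzd_claims hd (Finset.Ioi k) (Set.Iio k) ?_ k (by simp) (by simp)
    rw [Finset.coe_Ioi, Set.disjoint_left]
    intro i hi hi2
    exact absurd (lt_trans (Set.mem_Iio.1 hi) (Set.mem_Ioi.1 hi2)) (lt_irrefl _)
  obtain ⟨c, hc'⟩ := wiebe n ⊥ (u • H) X (dF n d) (by
      intro i
      have : dF n d i - ∑ j, (u • H) i j * X j = 0 := by
        have e : ∑ j, (u • H) i j * X j = u * ∑ j, pderiv j (dF n d i) * X j := by
          rw [Finset.mul_sum]
          apply Finset.sum_congr rfl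
          intro j _
          rw [Matrix.smul_apply, smul_eq_mul, mul_assoc]
          rfl
        rw [e, euler, ← mul_assoc, hu, one_mul, sub_self]
      rw [this]
      exact Ideal.zero_mem _)
    (by intro k; rw [hK k]; exact (hc k).1)
    (by intro k; rw [hK k]; exact (hc k).2) x
    (by intro i; rw [bot_sup_eq]; exact hx i)
  rw [bot_sup_eq, det_smul] at hc'
  refine ⟨c * u ^ Fintype.card (Fin n), ?_⟩
  have e : c * u ^ Fintype.card (Fin n) * hess (gen n d) =
      c * (u ^ Fintype.card (Fin n) * H.det) := by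
    rw [mul_assoc]; rfl
  rw [e]
  exact hc'

theorem mul_hess_mem (a : ℕ) (ha : 0 < a) (p : MvPolynomial (Fin n) (A n d))
    (hp : p.IsHomogeneous a) : p * hess (gen n d) ∈ JJ n d := by
  rw [p.as_sum, Finset.sum_mul]
  refine Ideal.sum_mem _ fun m hm => ?_
  have h1 : m.degree = a := degree_of_isHomogeneous hp (mem_support_iff.1 hm)
  have h2 : m ≠ 0 := by
    rintro rfl
    simp at h1
    omega
  obtain ⟨i, hi⟩ := Finsupp.ne_iff.1 h2
  have h3 : monomial m (coeff m p) = monomial (m - Finsupp.single i 1) (coeff m p) * X i := by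
    rw [X, monomial_mul, mul_one]
    congr 2
    ext j
    simp only [Finsupp.add_apply, Finsupp.tsub_apply, Finsupp.single_apply]
    simp only [Finsupp.coe_zero, Pi.zero_apply] at hi
    split_ifs with hj
    · subst hj; omega
    · omega
  rw [h3, mul_assoc]
  exact Ideal.mul_mem_left _ _ (X_mul_hess_mem i)

theorem hess_gen_isHomogeneous : (hess (gen n d)).IsHomogeneous (n * (d - 2)) :=
  hess_isHomogeneous _ (form_isHomogeneous _)

theorem high_degree (hd : 2 ≤ d) (N : ℕ) : ∀ j, n * (d - 2) < j →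
    ∀ x : MvPolynomial (Fin n) (A n d), x.IsHomogeneous j →
    (∀ β : Fin n →₀ ℕ, β.degree = N → monomial β 1 * x ∈ JJ n d) → x ∈ JJ n d := by
  induction N with
  | zero =>
    intro j _ x _ h
    have := h 0 (by simp)
    simpa using this
  | succ N ih =>
    intro j hj x hx h
    have h1 : ∀ i, x * X i ∈ JJ n d := by
      intro i
      refine ih (j + 1) (by omega) (x * X i) (hx.mul (isHomogeneous_X _ i)) ?_
      intro β hβ
      have h2 := h (β + Finsupp.single i 1) (by
        rw [map_add, hβ]; simp)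
      have h3 : monomial (β + Finsupp.single i 1) (1 : A n d) * x = monomial β 1 * (x * X i) := by
        have : monomial (β + Finsupp.single i 1) (1 : A n d) = monomial β 1 * X i := by
          rw [X, monomial_mul, mul_one]
        rw [this]
        ring
      rwa [h3] at h2
    obtain ⟨c, hc⟩ := socle_ideal hd x h1
    obtain ⟨a, rfl⟩ : ∃ a, j = a + n * (d - 2) := ⟨j - n * (d - 2), by omega⟩
    have h2 := component_mem _ hc (a + n * (d - 2))
    rw [map_sub, homogeneousComponent_mul_of_isHomogeneous _ _ _ _ hess_gen_isHomogeneous,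
      homogeneousComponent_eq_self hx] at h2
    have h3 := mul_hess_mem a (by omega) _ (homogeneousComponent_isHomogeneous a c)
    have := Ideal.add_mem _ h2 h3
    simpa using this

/-- The key statement: in the socle degree, `Δ` times anything is a multiple of the Hessian
modulo the ideal of the partial derivatives. -/
theorem key (hn : 0 < n) (hd : 2 ≤ d) (Δ : MvPolynomial (Mon n d) ℂ)
    (hΔ : VanishesOnDegenerate Δ) (h : MvPolynomial (Fin n) (A n d))
    (hh : h.IsHomogeneous (n * (d - 2))) : ∃ q : A n d, C Δ * h - C q * hess (gen n d) ∈ JJ n d := by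
  obtain ⟨K, hK⟩ := inertia hn hd Δ hΔ
  have h1 : ∀ i, (C Δ * h) * X i ∈ JJ n d := by
    intro i
    refine high_degree hd (n * K) (n * (d - 2) + 1) (by omega) _ ?_ ?_
    · have := ((isHomogeneous_C (Fin n) Δ).mul hh).mul (isHomogeneous_X _ i)
      rwa [zero_add] at this
    · intro β hβ
      obtain ⟨l, hl⟩ : ∃ l, K ≤ β l := by
        by_contra hcon
        push Not at hcon
        have h2 : β.degree = ∑ l : Fin n, β l := by
          rw [Finsupp.degree_apply]
          apply Finset.sum_subset (Finset.subset_univ _)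
          intro x _ hx
          simpa using hx
        have h3 : ∑ l : Fin n, β l < ∑ _l : Fin n, K := by
          apply Finset.sum_lt_sum_of_nonempty
          · exact ⟨⟨0, hn⟩, Finset.mem_univ _⟩
          · intro l _
            exact hcon l
        rw [← h2, hβ] at h3
        simp at h3
      have h4 : monomial β (1 : A n d) = monomial (β - Finsupp.single l K) 1 * X l ^ K := by
        rw [X_pow_eq_monomial, monomial_mul, mul_one]
        congr 2
        ext j
        simp only [Finsupp.add_apply, Finsupp.tsub_apply, Finsupp.single_apply]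
        split_ifs with hj
        · subst hj; omega
        · omega
      have h5 : monomial β (1 : A n d) * (C Δ * h * X i) =
          monomial (β - Finsupp.single l K) 1 * (h * X i) * (X l ^ K * C Δ) := by
        rw [h4]; ring
      rw [h5]
      exact Ideal.mul_mem_left _ _ (hK l)
  obtain ⟨c, hc⟩ := socle_ideal hd _ h1
  have hx : (C Δ * h).IsHomogeneous (0 + n * (d - 2)) := (isHomogeneous_C (Fin n) Δ).mul hh
  have h2 := component_mem _ hc (0 + n * (d - 2))
  rw [map_sub, homogeneousComponent_mul_of_isHomogeneous _ _ _ _ hess_gen_isHomogeneous,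
      homogeneousComponent_eq_self hx, homogeneousComponent_zero] at h2
  exact ⟨_, h2⟩

theorem map_gen (c : Mon n d → ℂ) : map (eval c) (gen n d) = form c := by
  unfold gen
  rw [map_form]
  congr 1
  funext α
  simp

theorem map_mem_jacIdeal (c : Mon n d → ℂ) (x : MvPolynomial (Fin n) (A n d)) (hx : x ∈ JJ n d) :
    map (eval c) x ∈ jacIdeal (form c) := by
  have : JJ n d ≤ Ideal.comap (map (eval c)) (jacIdeal (form c)) := by
    unfold JJ
    rw [Ideal.span_le]
    rintro _ ⟨i, rfl⟩
    change map (eval c) (dF n d i) ∈ jacIdeal (form c)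
    unfold dF
    rw [← pderiv_map, map_gen]
    exact Ideal.subset_span ⟨i, rfl⟩
  exact this hx

theorem extends_one (hn : 0 < n) (hd : 2 ≤ d) (Δ : MvPolynomial (Mon n d) ℂ)
    (hΔ : VanishesOnDegenerate Δ) : PowerExtends Δ 1 := by
  apply powerExtends_one hd
  intro x
  obtain ⟨q, hq⟩ := key hn hd Δ hΔ (form fun γ => C (x γ)) (form_isHomogeneous _)
  refine ⟨q, ?_⟩
  intro c hc v hv
  have h1 := map_mem_jacIdeal c _ hq
  rw [map_sub, map_mul, map_mul, map_C, map_C, map_hess, map_gen, map_form] at h1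
  simp only [eval_C] at h1
  have h2 := Ideal.mul_mem_left _ (C (eval c Δ)) hv
  have h3 := Ideal.sub_mem _ h2 h1
  have h4 : C (eval c q - eval c Δ * v) * hess (form c) ∈ jacIdeal (form c) := by
    convert h3 using 1
    rw [map_sub, map_mul]
    ring
  by_contra hne
  have hne' : eval c q - eval c Δ * v ≠ 0 := sub_ne_zero.2 hne
  apply (socle_form hd c hc).1
  have h5 := Ideal.mul_mem_left _ (C (eval c q - eval c Δ * v)⁻¹) h4
  rw [← mul_assoc, ← map_mul, inv_mul_cancel₀ hne', map_one, one_mul] at h5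
  exact h5

end Pool.Agent.Q80.Disc
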