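import Pool.Agent.Q80.Disc.Descent

namespace Pool.Agent.Q80.Disc

open MvPolynomial Pool.Agent.Helper56.Disc

variable {n d : ℕ}

section general
variable {S : Type*} [CommRing S]

/-- the generic linear form -/
noncomputable def LL (s : Fin n → S) : MvPolynomial (Fin n) S := ∑ j, C (s j) * X j

/-- A form all of whose partial derivatives vanish at `z`; it equals `d (s·z)^d form c` if the
partial derivatives of `form c` vanish at `z`. -/
noncomputable def G2 (c : Mon n d → S) (z s : Fin n → S) : MvPolynomial (Fin n) S :=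
  C ((d : S) * (∑ j, s j * z j) ^ d) * form c -
  (C ((d : S) * ∑ j, s j * z j) * (LL s ^ (d - 1) * ∑ i, C (vv c z i) * X i) -
    C (((d - 1 : ℕ) : S) * ∑ i, vv c z i * z i) * LL s ^ d)

theorem map_LL {S' : Type*} [CommRing S'] (φ : S →+* S') (s : Fin n → S) :
    map φ (LL s) = LL (fun j => φ (s j)) := by
  unfold LL
  simp

theorem G2_map {S' : Type*} [CommRing S'] (φ : S →+* S') (c : Mon n d → S) (z s : Fin n → S) :
    map φ (G2 c z s) = G2 (fun α => φ (c α)) (fun j => φ (z j)) (fun j => φ (s j)) := by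
  unfold G2
  simp only [map_sub, map_mul, map_pow, map_C, map_X, map_sum, map_natCast, map_form, vv_map,
    map_LL]

theorem LL_isHomogeneous (s : Fin n → S) : (LL s).IsHomogeneous 1 := by
  refine IsHomogeneous.sum _ _ _ fun i _ => ?_
  have := (isHomogeneous_C (Fin n) (s i)).mul (isHomogeneous_X S i)
  rwa [zero_add] at this

theorem G2_isHomogeneous (hd : 1 ≤ d) (c : Mon n d → S) (z s : Fin n → S) :
    (G2 c z s).IsHomogeneous d := by
  unfold G2
  refine IsHomogeneous.sub ?_ (IsHomogeneous.sub ?_ ?_)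
  · have h2 := (isHomogeneous_C (Fin n) ((d : S) * (∑ j, s j * z j) ^ d)).mul (form_isHomogeneous c)
    rwa [zero_add] at h2
  · have h1 : (LL s ^ (d - 1) * LL (vv c z)).IsHomogeneous (1 * (d - 1) + 1) :=
      ((LL_isHomogeneous s).pow _).mul (LL_isHomogeneous _)
    have h2 := (isHomogeneous_C (Fin n) ((d : S) * ∑ j, s j * z j)).mul h1
    rwa [zero_add, one_mul, Nat.sub_add_cancel hd] at h2
  · have h2 := (isHomogeneous_C (Fin n) (((d - 1 : ℕ) : S) * ∑ i, vv c z i * z i)).mul
      ((LL_isHomogeneous s).pow d)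
    rwa [zero_add, one_mul] at h2

theorem pderiv_LL (s : Fin n → S) (i : Fin n) : pderiv i (LL s) = C (s i) := by
  unfold LL
  rw [map_sum, Finset.sum_eq_single i]
  · rw [pderiv_C_mul, pderiv_X_self, mul_one]
  · intro j _ hj
    rw [pderiv_C_mul, pderiv_X_of_ne hj, mul_zero]
  · simp

theorem eval_LL' (s z : Fin n → S) : eval z (LL s) = ∑ j, s j * z j := by
  unfold LL
  simp

theorem eval_pderiv_G2 (hd : 2 ≤ d) (c : Mon n d → S) (z s : Fin n → S) (i : Fin n) :
    eval z (pderiv i (G2 c z s)) = 0 := by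
  obtain ⟨m, rfl⟩ : ∃ m, d = m + 2 := ⟨d - 2, by omega⟩
  have h1 : m + 2 - 1 = m + 1 := by omega
  have hV : (∑ i, C (vv c z i) * X i : MvPolynomial (Fin n) S) = LL (vv c z) := rfl
  unfold G2
  rw [hV]
  simp only [map_sub]
  rw [h1, pderiv_C_mul, pderiv_C_mul,
    pderiv_C_mul, Derivation.leibniz, pderiv_LL, Derivation.leibniz_pow, Derivation.leibniz_pow,
    pderiv_LL]
  simp only [smul_eq_mul, nsmul_eq_mul, map_mul, eval_C, map_add, map_pow, eval_LL', map_natCast,
    Nat.add_sub_cancel]
  have h3 : eval z (pderiv i (form c)) = vv c z i := rfl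
  rw [h3, h1]
  push_cast
  ring

end general

theorem degenerate_G2 (hn : 0 < n) (hd : 2 ≤ d) (c : Mon n d → ℂ) (z s : Fin n → ℂ) :
    ¬ Nondegenerate (G2 c z s) := by
  intro h
  by_cases hz : z = 0
  · have h0 : G2 c z s = 0 := by
      have h1 : (0 : ℕ) < d := by omega
      subst hz
      unfold G2
      simp [h1.ne']
    rw [h0] at h
    have h2 := h (fun _ => 1) (by intro i; simp)
    have h3 := congrFun h2 ⟨0, hn⟩
    simp at h3
  · exact hz (h z fun i => eval_pderiv_G2 hd c z s i)

theorem exists_G2_eq (hd : 2 ≤ d) (c : Mon n d → ℂ) (hc : ¬ Nondegenerate (form c)) :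
    ∃ z s : Fin n → ℂ, G2 c z s = form c := by
  classical
  unfold Nondegenerate at hc
  push Not at hc
  obtain ⟨z, hz, hz0⟩ := hc
  obtain ⟨l, hl⟩ := Function.ne_iff.1 hz0
  simp only [Pi.zero_apply] at hl
  obtain ⟨t, ht⟩ := IsAlgClosed.exists_pow_nat_eq ((d : ℂ)⁻¹) (show 0 < d by omega)
  refine ⟨z, Pi.single l (t / z l), ?_⟩
  have hv : ∀ i, vv c z i = 0 := hz
  have hs : ∑ j, (Pi.single l (t / z l) : Fin n → ℂ) j * z j = t := by
    rw [Finset.sum_eq_single l]
    · rw [Pi.single_eq_same, div_mul_cancel₀ _ hl]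
    · intro j _ hj
      rw [Pi.single_eq_of_ne hj, zero_mul]
    · simp
  unfold G2
  rw [hs, ht]
  have hd0 : (d : ℂ) ≠ 0 := by rw [Nat.cast_ne_zero]; omega
  simp only [hv, map_zero, zero_mul, Finset.sum_const_zero, mul_zero, sub_zero]
  rw [mul_inv_cancel₀ hd0, map_one, one_mul]

/-- the ring of parameters -/
abbrev Par (n d : ℕ) := MvPolynomial (Mon n d ⊕ (Fin n ⊕ Fin n)) ℂ

/-- the parametrisation of the set of degenerate forms -/
noncomputable def para (n d : ℕ) : Mon n d → Par n d :=
  cv (G2 (fun α => X (Sum.inl α)) (fun j => X (Sum.inr (Sum.inl j))) (fun j => X (Sum.inr (Sum.inr j))))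

theorem aeval_para_eq_zero (hn : 0 < n) (hd : 2 ≤ d) (Δ : MvPolynomial (Mon n d) ℂ) :
    aeval (para n d) Δ = 0 ↔ VanishesOnDegenerate Δ := by
  have hev : ∀ p : (Mon n d ⊕ (Fin n ⊕ Fin n)) → ℂ, eval p (aeval (para n d) Δ) =
      eval (cv (G2 (fun α => p (Sum.inl α)) (fun j => p (Sum.inr (Sum.inl j)))
        (fun j => p (Sum.inr (Sum.inr j)))) : Mon n d → ℂ) Δ := by
    intro p
    have e1 : eval p (aeval (para n d) Δ) = eval (fun α => eval p (para n d α)) Δ := by
      have h1 : (eval p).comp (aeval (para n d) : _ →ₐ[ℂ] Par n d).toRingHom =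
          (eval (fun α => eval p (para n d α)) : MvPolynomial (Mon n d) ℂ →+* ℂ) := by
        apply MvPolynomial.ringHom_ext
        · intro r; simp
        · intro α; simp
      exact congrArg (fun f : _ →+* _ => f Δ) h1
    rw [e1]
    congr 1
    congr 1
    funext α
    unfold para cv
    rw [← coeff_map, G2_map]
    simp only [eval_X]
  constructor
  · intro h c hc
    obtain ⟨z, s, hG⟩ := exists_G2_eq hd c hc
    have h1 := hev (Sum.elim c (Sum.elim z s))
    rw [h, map_zero] at h1
    simp only [Sum.elim_inl, Sum.elim_inr] at h1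
    rw [hG, cv_form] at h1
    exact h1.symm
  · intro h
    apply MvPolynomial.funext
    intro p
    rw [hev, map_zero]
    apply h
    rw [form_cv _ (G2_isHomogeneous (by omega) _ _ _)]
    exact degenerate_G2 hn hd _ _ _

/-- the ideal of the set of degenerate forms -/
noncomputable def PP (n d : ℕ) : Ideal (MvPolynomial (Mon n d) ℂ) :=
  RingHom.ker (aeval (para n d) : MvPolynomial (Mon n d) ℂ →ₐ[ℂ] Par n d).toRingHom

theorem mem_PP (hn : 0 < n) (hd : 2 ≤ d) (Δ : MvPolynomial (Mon n d) ℂ) :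
    Δ ∈ PP n d ↔ VanishesOnDegenerate Δ := aeval_para_eq_zero hn hd Δ

theorem PP_isPrime : (PP n d).IsPrime := RingHom.ker_isPrime _

/-- A polynomial vanishing at all degenerate forms but not at a given nondegenerate form. -/
theorem exists_separating (hn : 0 < n) (c0 : Mon n d → ℂ)
    (hc0 : Nondegenerate (form c0)) :
    ∃ f : MvPolynomial (Mon n d) ℂ, VanishesOnDegenerate f ∧ eval c0 f ≠ 0 := by
  classical
  obtain ⟨K, hK⟩ := exists_pow_mem (fun i => pderiv i (form c0)) hc0
  set a := n * K with ha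
  set e := a + (d - 1) with he
  have hmem : ∀ γ : Mon n e, (Pi.single γ 1 : Mon n e → ℂ) ∈ W e a c0 := by
    intro γ
    apply mem_W_of_form_mem rfl
    have h1 : form (Pi.single γ 1 : Mon n e → ℂ) = monomial γ.1 1 := by
      unfold form
      rw [Finset.sum_eq_single γ]
      · rw [Pi.single_eq_same]
      · intro β _ hβ
        rw [Pi.single_eq_of_ne hβ, map_zero]
      · simp
    rw [h1]
    obtain ⟨l, hl⟩ : ∃ l, K ≤ γ.1 l := by
      by_contra hcon
      push Not at hcon
      have h2 : γ.1.degree = ∑ l : Fin n, γ.1 l := by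
        rw [Finsupp.degree_apply]
        apply Finset.sum_subset (Finset.subset_univ _)
        intro x _ hx
        simpa using hx
      have h3 : ∑ l : Fin n, γ.1 l < ∑ _l : Fin n, K := by
        apply Finset.sum_lt_sum_of_nonempty
        · exact ⟨⟨0, hn⟩, Finset.mem_univ _⟩
        · intro l _
          exact hcon l
      rw [← h2, mon_degree] at h3
      simp at h3
      omega
    have h4 : monomial γ.1 (1 : ℂ) = monomial (γ.1 - Finsupp.single l K) 1 * X l ^ K := by
      rw [X_pow_eq_monomial, monomial_mul, mul_one]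
      congr 2
      ext j
      simp only [Finsupp.add_apply, Finsupp.tsub_apply, Finsupp.single_apply]
      split_ifs with hj
      · subst hj; omega
      · omega
    rw [h4]
    exact Ideal.mul_mem_left _ _ (hK K le_rfl l)
  have hcoef : ∀ γ : Mon n e, ∃ y : (Fin n × Mon n a) → ℂ,
      ∑ κ, y κ • (row c0 κ : Mon n e → ℂ) = Pi.single γ 1 := by
    intro γ
    have := hmem γ
    unfold W at this
    rw [Submodule.mem_span_range_iff_exists_fun] at this
    exact this
  choose y hy using hcoef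
  set B : Matrix (Mon n e) (Mon n e) (MvPolynomial (Mon n d) ℂ) :=
    Matrix.of fun γ γ' => ∑ κ, C (y γ κ) * row (fun α => X α) κ γ' with hB
  have hBc : ∀ c : Mon n d → ℂ, eval c B.det =
      (Matrix.of fun γ γ' => (∑ κ, y γ κ • (row c κ : Mon n e → ℂ)) γ').det := by
    intro c
    rw [RingHom.map_det]
    congr 1
    ext γ γ'
    simp only [RingHom.mapMatrix_apply, Matrix.map_apply, hB, Matrix.of_apply, map_sum, map_mul,
      eval_C, Finset.sum_apply, Pi.smul_apply, smul_eq_mul]
    apply Finset.sum_congr rfl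
    intro κ _
    rw [row_map]
    simp
  refine ⟨B.det, ?_, ?_⟩
  · intro c hc
    unfold Nondegenerate at hc
    push Not at hc
    obtain ⟨z, hz, hz0⟩ := hc
    obtain ⟨l, hl⟩ := Function.ne_iff.1 hz0
    simp only [Pi.zero_apply] at hl
    rw [hBc]
    rw [← Matrix.exists_mulVec_eq_zero_iff]
    refine ⟨fun γ => ∏ i, z i ^ γ.1 i, ?_, ?_⟩
    · intro h0
      have h1 := congrFun h0 (⟨Finsupp.single l e, mem_mon _ (by simp)⟩ : Mon n e)
      simp only [Pi.zero_apply] at h1
      rw [Finset.prod_eq_single l] at h1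
      · rw [Finsupp.single_eq_same] at h1
        exact pow_ne_zero _ hl h1
      · intro j _ hj
        rw [Finsupp.single_eq_of_ne hj, pow_zero]
      · simp
    · funext γ
      set w : Mon n e → ℂ := ∑ κ, y γ κ • (row c κ : Mon n e → ℂ) with hw
      have h1 : form w ∈ jacIdeal (form c) := by
        apply form_mem_of_mem_W rfl
        rw [hw]
        exact Submodule.sum_mem _ fun κ _ => Submodule.smul_mem _ _ (Submodule.subset_span ⟨κ, rfl⟩)
      have h2 : eval z (form w) = 0 := by
        have : jacIdeal (form c) ≤ RingHom.ker (eval z) := by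
          unfold jacIdeal
          rw [Ideal.span_le]
          rintro _ ⟨i, rfl⟩
          exact hz i
        exact this h1
      have h3 : eval z (form w) = ∑ γ', w γ' * ∏ i, z i ^ γ'.1 i := by
        unfold form
        rw [map_sum]
        apply Finset.sum_congr rfl
        intro α _
        rw [eval_monomial, Finsupp.prod_fintype _ _ (by simp)]
      rw [h3] at h2
      exact h2
  · rw [hBc]
    have : (Matrix.of fun γ γ' => (∑ κ, y γ κ • (row c0 κ : Mon n e → ℂ)) γ') =
        (1 : Matrix (Mon n e) (Mon n e) ℂ) := by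
      ext γ γ'
      rw [Matrix.of_apply, hy, Matrix.one_apply, Pi.single_apply]
      simp only [eq_comm]
    rw [this, Matrix.det_one]
    exact one_ne_zero

theorem hext (hn : 0 < n) (hd : 2 ≤ d) (Δ : MvPolynomial (Mon n d) ℂ)
    (hΔ : VanishesOnDegenerate Δ) (x : Mon n (n * (d - 2)) → ℂ) : ∃ q : MvPolynomial (Mon n d) ℂ,
      ∀ c : Mon n d → ℂ, Nondegenerate (form c) → ∀ v : ℂ,
      form x - C v * hess (form c) ∈ jacIdeal (form c) → eval c q = eval c Δ * v := by
  obtain ⟨q, hq⟩ := key hn hd Δ hΔ (form fun γ => C (x γ)) (form_isHomogeneous _)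
  refine ⟨q, ?_⟩
  intro c hc v hv
  have h1 := map_mem_jacIdeal c _ hq
  rw [map_sub, map_mul, map_mul, map_C, map_C, map_hess, map_gen, map_form] at h1
  simp only [eval_C] at h1
  have h2 := Ideal.mul_mem_left _ (C (eval c Δ)) hv
  have h3 := Ideal.sub_mem _ h2 h1
  have h4 : C (eval c q - eval c Δ * v) * hess (form c) ∈ jacIdeal (form c) := by
    convert h3 using 1
    rw [map_sub, map_mul]
    ring
  by_contra hne
  have hne' : eval c q - eval c Δ * v ≠ 0 := sub_ne_zero.2 hne
  apply (socle_form hd c hc).1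
  have h5 := Ideal.mul_mem_left _ (C (eval c q - eval c Δ * v)⁻¹) h4
  rw [← mul_assoc, ← map_mul, inv_mul_cancel₀ hne', map_one, one_mul] at h5
  exact h5

/-- The Hessian coefficients pair to one with the socle functional. -/
theorem sum_hv (hd : 2 ≤ d) (c : Mon n d → ℂ) (hc : Nondegenerate (form c))
    (v : Mon n (n * (d - 2)) → ℂ)
    (hv' : ∀ γ, form (Pi.single γ 1 : Mon n (n * (d - 2)) → ℂ) - C (v γ) * hess (form c) ∈
      jacIdeal (form c)) : ∑ γ, hv c γ * v γ = 1 := by
  classical
  have h1 : hess (form c) = ∑ γ, C (hv c γ) * form (Pi.single γ 1 : Mon n (n * (d - 2)) → ℂ) := by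
    rw [← form_hv]
    unfold form
    apply Finset.sum_congr rfl
    intro γ _
    rw [Finset.sum_eq_single γ]
    · rw [Pi.single_eq_same, C_mul_monomial, mul_one]
    · intro β _ hβ
      rw [Pi.single_eq_of_ne hβ, map_zero]
    · simp
  have h2 : C (1 - ∑ γ, hv c γ * v γ) * hess (form c) ∈ jacIdeal (form c) := by
    have e1 : ∑ γ, C (hv c γ) * (form (Pi.single γ 1 : Mon n (n * (d - 2)) → ℂ) -
          C (v γ) * hess (form c)) = ∑ γ, C (hv c γ) * form (Pi.single γ 1 : Mon n (n * (d - 2)) → ℂ) -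
          ∑ γ, C (hv c γ * v γ) * hess (form c) := by
      rw [← Finset.sum_sub_distrib]
      apply Finset.sum_congr rfl
      intro γ _
      rw [mul_sub, map_mul, mul_assoc]
    have e2 : ∑ γ, C (hv c γ * v γ) * hess (form c) = C (∑ γ, hv c γ * v γ) * hess (form c) := by
      rw [map_sum, Finset.sum_mul]
    have h3 : C (1 - ∑ γ, hv c γ * v γ) * hess (form c) =
        ∑ γ, C (hv c γ) * (form (Pi.single γ 1 : Mon n (n * (d - 2)) → ℂ) -
          C (v γ) * hess (form c)) := by
      rw [e1, e2, map_sub, map_one, sub_mul, one_mul]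
      exact congrArg (fun t => t - C (∑ γ, hv c γ * v γ) * hess (form c)) h1
    rw [h3]
    exact Ideal.sum_mem _ fun γ _ => Ideal.mul_mem_left _ _ (hv' γ)
  by_contra hne
  have hne' : 1 - ∑ γ, hv c γ * v γ ≠ 0 := sub_ne_zero.2 (Ne.symm hne)
  apply (socle_form hd c hc).1
  have h5 := Ideal.mul_mem_left _ (C (1 - ∑ γ, hv c γ * v γ)⁻¹) h2
  rw [← mul_assoc, ← map_mul, inv_mul_cancel₀ hne', map_one, one_mul] at h5
  exact h5

/-- The ideal of the set of degenerate forms is principal. -/
theorem dvd_of_mem (hn : 0 < n) (hd : 2 ≤ d) (Δ g : MvPolynomial (Mon n d) ℂ)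
    (hΔp : Prime Δ) (hΔ : VanishesOnDegenerate Δ) (hg : VanishesOnDegenerate g) : Δ ∣ g := by
  classical
  by_contra hnd
  choose P hP using fun γ : Mon n (n * (d - 2)) => hext hn hd Δ hΔ (Pi.single γ 1)
  choose Q hQ using fun γ : Mon n (n * (d - 2)) => hext hn hd g hg (Pi.single γ 1)
  have h1 : ∀ γ, Δ ∣ P γ := by
    intro γ
    have h2 : Δ * Q γ = g * P γ := by
      apply MvPolynomial.funext
      intro c
      rw [map_mul, map_mul]
      by_cases hc : Nondegenerate (form c)
      · obtain ⟨v, hv'⟩ := (socle_form hd c hc).2 (Pi.single γ 1)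
        rw [hP γ c hc v hv', hQ γ c hc v hv']
        ring
      · rw [hΔ c hc, hg c hc, zero_mul, zero_mul]
    have h3 : Δ ∣ g * P γ := ⟨Q γ, h2.symm⟩
    exact (hΔp.dvd_or_dvd h3).resolve_left hnd
  choose T hT using h1
  have h4 : ∑ γ, hv (fun α => X α) γ * P γ = Δ := by
    apply MvPolynomial.funext
    intro c
    rw [map_sum]
    by_cases hc : Nondegenerate (form c)
    · choose v hv' using fun γ : Mon n (n * (d - 2)) => (socle_form hd c hc).2 (Pi.single γ 1)
      have h5 := sum_hv hd c hc v hv'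
      have h6 : ∀ γ, eval c (hv (fun α => X α) γ * P γ) = eval c Δ * (hv c γ * v γ) := by
        intro γ
        rw [map_mul, hP γ c hc _ (hv' γ), hv_map]
        simp only [eval_X]
        ring
      simp only [h6]
      rw [← Finset.mul_sum, h5, mul_one]
    · rw [hΔ c hc]
      apply Finset.sum_eq_zero
      intro γ _
      rw [map_mul, hT γ, map_mul, hΔ c hc]
      ring
  have h7 : ∑ γ, hv (fun α => X α) γ * T γ = 1 := by
    have h8 : Δ * ∑ γ, hv (fun α => X α) γ * T γ = Δ * 1 := by
      rw [mul_one]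
      conv_rhs => rw [← h4]
      rw [Finset.mul_sum]
      apply Finset.sum_congr rfl
      intro γ _
      rw [hT γ]
      ring
    exact mul_left_cancel₀ hΔp.ne_zero h8
  have h9 := congrArg (eval (0 : Mon n d → ℂ)) h7
  rw [map_sum, map_one] at h9
  have h10 : ∀ γ : Mon n (n * (d - 2)), eval (0 : Mon n d → ℂ) (hv (fun α => X α) γ * T γ) = 0 := by
    intro γ
    rw [map_mul, hv_map]
    have : hv (fun α : Mon n d => (eval (0 : Mon n d → ℂ)) (X α)) γ = 0 := by
      have e1 : (fun α : Mon n d => (eval (0 : Mon n d → ℂ)) (X α)) = 0 := by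
        funext α; simp
      rw [e1]
      have e2 : form (0 : Mon n d → ℂ) = 0 := by simp [form]
      unfold hv cv hess
      rw [e2]
      have e3 : (Matrix.of fun i j => pderiv j (pderiv i (0 : MvPolynomial (Fin n) ℂ))) = 0 := by
        ext i j
        simp
      have : Nonempty (Fin n) := ⟨⟨0, hn⟩⟩
      rw [e3, Matrix.det_zero, coeff_zero]
    rw [this, zero_mul]
  simp only [h10, Finset.sum_const_zero] at h9
  exact zero_ne_one h9

/-- The Fermat form is nondegenerate. -/
theorem exists_nondegenerate (hd : 2 ≤ d) : ∃ c : Mon n d → ℂ, Nondegenerate (form c) := by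
  classical
  refine ⟨cv (∑ i, X i ^ d), ?_⟩
  rw [form_cv]
  · intro z hz
    funext i
    have h1 := hz i
    rw [map_sum, Finset.sum_eq_single i] at h1
    · rw [Derivation.leibniz_pow, pderiv_X_self] at h1
      simp only [smul_eq_mul, nsmul_eq_mul, mul_one, map_mul, map_natCast, map_pow, eval_X] at h1
      rcases mul_eq_zero.1 h1 with h2 | h2
      · rw [Nat.cast_eq_zero] at h2; omega
      · exact pow_eq_zero_iff (by omega) |>.1 h2
    · intro j _ hj
      rw [Derivation.leibniz_pow, pderiv_X_of_ne hj]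
      simp
    · simp
  · exact IsHomogeneous.sum _ _ _ fun i _ => isHomogeneous_X_pow i d

/-- The discriminant exists. -/
theorem exists_discriminant (hn : 0 < n) (hd : 2 ≤ d) :
    ∃ Δ : MvPolynomial (Mon n d) ℂ, IsDiscriminant Δ := by
  obtain ⟨c0, hc0⟩ := exists_nondegenerate (n := n) hd
  obtain ⟨f, hf, hf0⟩ := exists_separating hn c0 hc0
  have hP : PP n d ≠ ⊥ := by
    intro h
    have h1 : f ∈ PP n d := (mem_PP hn hd f).2 hf
    rw [h] at h1
    rw [(Submodule.mem_bot _).1 h1, map_zero] at hf0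
    exact hf0 rfl
  obtain ⟨Δ, hΔm, hΔp⟩ := (PP_isPrime (n := n) (d := d)).exists_mem_prime_of_ne_bot hP
  have hΔ := (mem_PP hn hd Δ).1 hΔm
  refine ⟨Δ, hΔp.irreducible, fun c => ⟨?_, hΔ c⟩⟩
  intro h0 hc
  obtain ⟨g, hg, hg0⟩ := exists_separating hn c hc
  obtain ⟨q, hq⟩ := dvd_of_mem hn hd Δ g hΔp hΔ hg
  apply hg0
  rw [hq, map_mul, h0, zero_mul]

end Pool.Agent.Q80.Disc
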