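import Mathlib

namespace Pool.Agent.Q80.Disc

variable {R : Type*} [CommRing R]

/-- `y` is a nonzerodivisor modulo the ideal `I`. -/
def NZD (I : Ideal R) (y : R) : Prop := ∀ x, y * x ∈ I → x ∈ I

theorem NZD.swap {I : Ideal R} {y P : R} (h1 : NZD I y) (h2 : NZD (I ⊔ Ideal.span {y}) P) :
    NZD (I ⊔ Ideal.span {P}) y := by
  intro x hx
  rw [Submodule.mem_sup] at hx
  obtain ⟨i, hi, p, hp, hx⟩ := hx
  rw [Ideal.mem_span_singleton'] at hp
  obtain ⟨c, rfl⟩ := hp
  have h3 : P * c ∈ I ⊔ Ideal.span {y} := by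
    have : P * c = -i + y * x := by rw [← hx]; ring
    rw [this]
    exact Ideal.add_mem _ (Ideal.mem_sup_left (Submodule.neg_mem _ hi))
      (Ideal.mem_sup_right (Ideal.mul_mem_right _ _ (Ideal.mem_span_singleton_self y)))
  have h4 := h2 c h3
  rw [Submodule.mem_sup] at h4
  obtain ⟨i', hi', p', hp', hc⟩ := h4
  rw [Ideal.mem_span_singleton'] at hp'
  obtain ⟨c', rfl⟩ := hp'
  have h5 : y * (x - P * c') ∈ I := by
    have : y * (x - P * c') = i + P * i' := by
      rw [mul_sub, ← hx, ← hc]; ring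
    rw [this]
    exact Ideal.add_mem _ hi (Ideal.mul_mem_left _ _ hi')
  have h6 := h1 _ h5
  have : x = (x - P * c') + P * c' := by ring
  rw [this]
  exact Ideal.add_mem _ (Ideal.mem_sup_left h6)
    (Ideal.mem_sup_right (Ideal.mul_mem_right _ _ (Ideal.mem_span_singleton_self P)))

/-- A linear polynomial whose leading coefficient is a nonzerodivisor modulo `I` is a
nonzerodivisor modulo `I[T]`. -/
theorem coeff_mem_of_mul (I : Ideal R) (l f : R) (hl : NZD I l) (q : Polynomial R)
    (h : ∀ m, ((Polynomial.C f + Polynomial.X * Polynomial.C l) * q).coeff m ∈ I) :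
    ∀ m, q.coeff m ∈ I := by
  have key : ∀ j m, q.natDegree + 1 ≤ m + j → q.coeff m ∈ I := by
    intro j
    induction j with
    | zero =>
      intro m hm
      rw [Polynomial.coeff_eq_zero_of_natDegree_lt (by omega)]
      exact I.zero_mem
    | succ j ih =>
      intro m hm
      have h1 := ih (m + 1) (by omega)
      have h2 := h (m + 1)
      have e : ((Polynomial.C f + Polynomial.X * Polynomial.C l) * q).coeff (m + 1) =
          f * q.coeff (m + 1) + l * q.coeff m := by
        rw [add_mul, Polynomial.coeff_add, Polynomial.coeff_C_mul, mul_assoc,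
          Polynomial.coeff_X_mul, Polynomial.coeff_C_mul]
      rw [e] at h2
      apply hl
      have := Ideal.sub_mem _ h2 (Ideal.mul_mem_left _ f h1)
      simpa using this
  intro m
  exact key (q.natDegree + 1) m (by omega)

theorem shift_ideal {n : ℕ} (I0 : Ideal R) (a b : Fin (n + 1) → R) (k : Fin n) :
    I0 ⊔ Ideal.span {a 0} ⊔ Ideal.span ((fun i : Fin n => b i.succ) '' Set.Ioi k) ⊔
      Ideal.span ((fun i : Fin n => a i.succ) '' Set.Iio k) =
    I0 ⊔ Ideal.span (b '' Set.Ioi k.succ) ⊔ Ideal.span (a '' Set.Iio k.succ) := by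
  have e1 : b '' Set.Ioi k.succ = (fun i : Fin n => b i.succ) '' Set.Ioi k := by
    ext y
    simp only [Set.mem_image, Set.mem_Ioi]
    constructor
    · rintro ⟨i, hi, rfl⟩
      rcases Fin.eq_zero_or_eq_succ i with h | ⟨j, rfl⟩
      · rw [h] at hi; exact absurd hi (by simp)
      · exact ⟨j, Fin.succ_lt_succ_iff.1 hi, rfl⟩
    · rintro ⟨j, hj, rfl⟩
      exact ⟨_, Fin.succ_lt_succ_iff.2 hj, rfl⟩
  have e2 : a '' Set.Iio k.succ = {a 0} ∪ (fun i : Fin n => a i.succ) '' Set.Iio k := by
    ext y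
    simp only [Set.mem_image, Set.mem_Iio, Set.mem_union, Set.mem_singleton_iff]
    constructor
    · rintro ⟨i, hi, rfl⟩
      rcases Fin.eq_zero_or_eq_succ i with h | ⟨j, rfl⟩
      · left; rw [h]
      · right; exact ⟨j, Fin.succ_lt_succ_iff.1 hi, rfl⟩
    · rintro (rfl | ⟨j, hj, rfl⟩)
      · exact ⟨0, Fin.succ_pos _, rfl⟩
      · exact ⟨_, Fin.succ_lt_succ_iff.2 hj, rfl⟩
  rw [e1, e2, Ideal.span_union]
  ac_rfl

open Matrix in
/-- Wiebe's lemma. -/
theorem wiebe : ∀ (n : ℕ) (I0 : Ideal R) (M : Matrix (Fin n) (Fin n) R) (a b : Fin n → R),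
    (∀ i, b i - ∑ j, M i j * a j ∈ I0) →
    (∀ k, NZD (I0 ⊔ Ideal.span (b '' Set.Ioi k) ⊔ Ideal.span (a '' Set.Iio k)) (a k)) →
    (∀ k, NZD (I0 ⊔ Ideal.span (b '' Set.Ioi k) ⊔ Ideal.span (a '' Set.Iio k)) (b k)) →
    ∀ x, (∀ i, x * a i ∈ I0 ⊔ Ideal.span (Set.range b)) →
      ∃ c, x - c * M.det ∈ I0 ⊔ Ideal.span (Set.range b) := by
  intro n
  induction n with
  | zero =>
    intro I0 M a b _ _ _ x _
    refine ⟨x, ?_⟩
    simp
  | succ n ih =>
    intro I0 M a b hb ha' hb' x hx
    -- the ideal generated by `I0` and the `b i` with `i > 0`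
    set B := I0 ⊔ Ideal.span (Set.range (fun i : Fin n => b i.succ)) with hB
    have hBall : I0 ⊔ Ideal.span (Set.range b) = B ⊔ Ideal.span {b 0} := by
      rw [hB, sup_assoc, ← Ideal.span_union]
      congr 2
      ext y
      simp only [Set.mem_range, Set.mem_union, Set.mem_singleton_iff]
      constructor
      · rintro ⟨i, rfl⟩
        rcases Fin.eq_zero_or_eq_succ i with h | ⟨j, rfl⟩
        · right; rw [h]
        · left; exact ⟨j, rfl⟩
      · rintro (⟨j, rfl⟩ | rfl)
        · exact ⟨_, rfl⟩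
        · exact ⟨_, rfl⟩
    have hB0 : I0 ⊔ Ideal.span (b '' Set.Ioi 0) ⊔ Ideal.span (a '' Set.Iio 0) = B := by
      have e1 : (Set.Iio (0 : Fin (n + 1))) = ∅ := by
        ext i; simp
      have e2 : b '' Set.Ioi 0 = Set.range (fun i : Fin n => b i.succ) := by
        ext y
        simp only [Set.mem_image, Set.mem_Ioi, Set.mem_range]
        constructor
        · rintro ⟨i, hi, rfl⟩
          rcases Fin.eq_zero_or_eq_succ i with h | ⟨j, rfl⟩
          · rw [h] at hi; exact absurd hi (lt_irrefl _)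
          · exact ⟨j, rfl⟩
        · rintro ⟨j, rfl⟩
          exact ⟨_, Fin.succ_pos j, rfl⟩
      rw [e1, e2]
      simp [hB]
    have hna : NZD B (a 0) := by have := ha' 0; rwa [hB0] at this
    have hnb : NZD B (b 0) := by have := hb' 0; rwa [hB0] at this
    -- the key relation
    have hadj : b 0 * (M.submatrix Fin.succ Fin.succ).det - a 0 * M.det ∈ B := by
      have e1 : M.adjugate 0 0 = (M.submatrix Fin.succ Fin.succ).det := by
        rw [Matrix.adjugate_fin_succ_eq_det_submatrix]
        simp [Fin.succAbove_zero]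
      have e2 : ∑ i, M.adjugate 0 i * (b i - ∑ j, M i j * a j) ∈ I0 :=
        Ideal.sum_mem _ fun i _ => Ideal.mul_mem_left _ _ (hb i)
      have e3 : ∑ i, M.adjugate 0 i * ∑ j, M i j * a j = M.det * a 0 := by
        have h1 : (M.adjugate * M).mulVec a = (M.det • (1 : Matrix (Fin (n+1)) (Fin (n+1)) R)).mulVec a := by
          rw [adjugate_mul]
        rw [← mulVec_mulVec, smul_mulVec, one_mulVec] at h1
        have h2 := congrFun h1 0
        rw [Pi.smul_apply, smul_eq_mul] at h2
        rw [← h2]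
        rfl
      simp only [mul_sub, Finset.sum_sub_distrib] at e2
      rw [e3, Fin.sum_univ_succ, e1] at e2
      have e4 : ∑ i : Fin n, M.adjugate 0 i.succ * b i.succ ∈ B :=
        Ideal.sum_mem _ fun i _ => Ideal.mul_mem_left _ _
          (Ideal.mem_sup_right (Ideal.subset_span ⟨i, rfl⟩))
      have := Ideal.sub_mem _ (Ideal.mem_sup_left e2 : _ ∈ B) e4
      convert this using 1
      ring
    rw [hBall] at hx ⊢
    -- `x * a 0 = y * b 0` modulo `B`
    have hx0 := hx 0
    rw [Submodule.mem_sup] at hx0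
    obtain ⟨β, hβ, p, hp, hxp⟩ := hx0
    rw [Ideal.mem_span_singleton'] at hp
    obtain ⟨y, rfl⟩ := hp
    -- apply the induction hypothesis to `y`
    obtain ⟨c, hc⟩ := ih (I0 ⊔ Ideal.span {a 0}) (M.submatrix Fin.succ Fin.succ)
      (fun i => a i.succ) (fun i => b i.succ) (by
        intro i
        have h1 := hb i.succ
        rw [Fin.sum_univ_succ] at h1
        have h2 : M i.succ 0 * a 0 ∈ I0 ⊔ Ideal.span {a 0} :=
          Ideal.mem_sup_right (Ideal.mul_mem_left _ _ (Ideal.mem_span_singleton_self _))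
        have := Ideal.add_mem _ (Ideal.mem_sup_left h1 : _ ∈ I0 ⊔ Ideal.span {a 0}) h2
        convert this using 1
        simp only [submatrix_apply]
        ring)
      (by
        intro k
        have h1 := ha' k.succ
        rwa [← shift_ideal I0 a b k] at h1)
      (by
        intro k
        have h1 := hb' k.succ
        rwa [← shift_ideal I0 a b k] at h1) y (by
        intro i
        have h1 := hx i.succ
        rw [Submodule.mem_sup] at h1
        obtain ⟨β', hβ', p', hp', hxp'⟩ := h1
        rw [Ideal.mem_span_singleton'] at hp'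
        obtain ⟨w, rfl⟩ := hp'
        have h2 : b 0 * (y * a i.succ - a 0 * w) ∈ B := by
          have : b 0 * (y * a i.succ - a 0 * w) = a 0 * β' - β * a i.succ := by
            linear_combination a i.succ * hxp - a 0 * hxp'
          rw [this]
          exact Ideal.sub_mem _ (Ideal.mul_mem_left _ _ hβ') (Ideal.mul_mem_right _ _ hβ)
        have h3 := hnb _ h2
        have h4 : y * a i.succ = (y * a i.succ - a 0 * w) + a 0 * w := by ring
        rw [h4]
        have h5 : B ≤ I0 ⊔ Ideal.span {a 0} ⊔ Ideal.span (Set.range fun i => b (Fin.succ i)) := by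
          rw [hB]
          exact sup_le (le_sup_left.trans le_sup_left) le_sup_right
        exact Ideal.add_mem _ (h5 h3) (Ideal.mem_sup_left (Ideal.mem_sup_right
          (Ideal.mul_mem_right _ _ (Ideal.mem_span_singleton_self _)))))
    have hswap : I0 ⊔ Ideal.span {a 0} ⊔ Ideal.span (Set.range fun i => b (Fin.succ i)) =
        B ⊔ Ideal.span {a 0} := by
      rw [hB, sup_right_comm]
    rw [hswap, Submodule.mem_sup] at hc
    obtain ⟨β'', hβ'', p'', hp'', hyp⟩ := hc
    rw [Ideal.mem_span_singleton'] at hp''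
    obtain ⟨e, rfl⟩ := hp''
    refine ⟨c, ?_⟩
    have h7 : a 0 * (x - c * M.det - e * b 0) ∈ B := by
      have : a 0 * (x - c * M.det - e * b 0) = β + β'' * b 0 +
          c * (b 0 * (M.submatrix Fin.succ Fin.succ).det - a 0 * M.det) := by
        linear_combination (-1 : R) * hxp - b 0 * hyp
      rw [this]
      exact Ideal.add_mem _ (Ideal.add_mem _ hβ (Ideal.mul_mem_right _ _ hβ''))
        (Ideal.mul_mem_left _ _ hadj)
    have h8 := hna _ h7
    have h9 : x - c * M.det = (x - c * M.det - e * b 0) + e * b 0 := by ring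
    rw [h9]
    exact Ideal.add_mem _ (Ideal.mem_sup_left h8) (Ideal.mem_sup_right
      (Ideal.mul_mem_left _ _ (Ideal.mem_span_singleton_self _)))

end Pool.Agent.Q80.Disc
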