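import Pool.Agent.Helper56.Disc.Assoc
import Pool.Agent.Q80.Disc.NZD

namespace Pool.Agent.Q80.Disc

open MvPolynomial Pool.Agent.Helper56.Disc

variable {n d : ℕ}

/-- the coefficient ring: polynomials in the coefficients of a form of degree `d` -/
abbrev A (n d : ℕ) := MvPolynomial (Mon n d) ℂ

/-- the generic form -/
noncomputable def gen (n d : ℕ) : MvPolynomial (Fin n) (A n d) := form (fun α => X α)

/-- the partial derivatives of the generic form -/
noncomputable def dF (n d : ℕ) (i : Fin n) : MvPolynomial (Fin n) (A n d) := pderiv i (gen n d)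

/-- the exponent of `z_k ^ d` -/
noncomputable def dek (k : Fin n) : Mon n d := ⟨Finsupp.single k d, mem_mon _ (by simp)⟩

/-- translation of the coefficient of `z_k ^ d` by a new variable -/
noncomputable def tr (k : Fin n) : MvPolynomial (Fin n) (A n d) →+*
    Polynomial (MvPolynomial (Fin n) (A n d)) :=
  eval₂Hom (eval₂Hom ((Polynomial.C.comp C).comp C)
    (fun α => Polynomial.C (C (X α)) + if α = dek k then Polynomial.X else 0))
    (fun i => Polynomial.C (X i))

theorem tr_X (k i : Fin n) : tr (d := d) k (X i) = Polynomial.C (X i) := by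
  simp [tr]

theorem tr_CX (k : Fin n) (α : Mon n d) : tr (d := d) k (C (X α)) =
    Polynomial.C (C (X α)) + if α = dek k then Polynomial.X else 0 := by
  simp [tr]

theorem tr_monomial (k : Fin n) (β : Fin n →₀ ℕ) (m : ℕ) :
    tr (d := d) k (monomial β ((m : ℕ) : A n d)) = Polynomial.C (monomial β ((m : ℕ) : A n d)) := by
  have h : (monomial β ((m : ℕ) : A n d)) = ((m : ℕ) : MvPolynomial (Fin n) (A n d)) *
      β.prod (fun i e => X i ^ e) := by
    rw [monomial_eq, map_natCast]
  rw [h, map_mul, map_mul, map_natCast, map_natCast, Finsupp.prod, map_prod, map_prod]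
  congr 1
  apply Finset.prod_congr rfl
  intro i _
  rw [map_pow, map_pow, tr_X]

theorem tr_eval (k : Fin n) (x : MvPolynomial (Fin n) (A n d)) :
    (tr k x).coeff 0 = x := by
  rw [Polynomial.coeff_zero_eq_eval_zero]
  have : (Polynomial.evalRingHom 0).comp (tr (d := d) k) = RingHom.id _ := by
    apply MvPolynomial.ringHom_ext
    · intro r
      have h2 : ((Polynomial.evalRingHom 0).comp (tr (d := d) k)).comp C =
          (C : A n d →+* MvPolynomial (Fin n) (A n d)) := by
        apply MvPolynomial.ringHom_ext
        · intro r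
          simp [tr]
        · intro α
          simp only [RingHom.comp_apply]
          rw [tr_CX]
          simp only [Polynomial.coe_evalRingHom, Polynomial.eval_add, Polynomial.eval_C]
          split_ifs <;> simp
      exact congrArg (fun f : _ →+* _ => f r) h2
    · intro i
      simp [tr_X]
  exact congrArg (fun f : _ →+* _ => f x) this

theorem dF_eq (t : Fin n) : dF n d t = ∑ α : Mon n d, C (X α) *
    monomial (α.1 - Finsupp.single t 1) ((α.1 t : ℕ) : A n d) := by
  unfold dF gen form
  rw [map_sum]
  apply Finset.sum_congr rfl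
  intro α _
  rw [pderiv_monomial, C_mul_monomial]

theorem tr_dF (k t : Fin n) : tr k (dF n d t) = Polynomial.C (dF n d t) +
    Polynomial.X * Polynomial.C (if t = k then (d : MvPolynomial (Fin n) (A n d)) * X k ^ (d - 1) else 0) := by
  have h1 : tr k (dF n d t) = ∑ α : Mon n d, (Polynomial.C (C (X α)) + if α = dek k then Polynomial.X else 0) *
      Polynomial.C (monomial (α.1 - Finsupp.single t 1) ((α.1 t : ℕ) : A n d)) := by
    rw [dF_eq, map_sum]
    apply Finset.sum_congr rfl
    intro α _
    rw [map_mul, tr_CX, tr_monomial]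
  have h2 : ∑ α : Mon n d, Polynomial.C (C (X α)) *
      Polynomial.C (monomial (α.1 - Finsupp.single t 1) ((α.1 t : ℕ) : A n d)) =
      Polynomial.C (dF n d t) := by
    rw [dF_eq, map_sum]
    apply Finset.sum_congr rfl
    intro α _
    rw [map_mul]
  have h3 : ∑ α : Mon n d, (if α = dek k then (Polynomial.X : Polynomial (MvPolynomial (Fin n) (A n d)))
      else 0) *
      Polynomial.C (monomial (α.1 - Finsupp.single t 1) ((α.1 t : ℕ) : A n d)) =
      Polynomial.X * Polynomial.C (if t = k then (d : MvPolynomial (Fin n) (A n d)) * X k ^ (d - 1)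
        else 0) := by
    rw [Finset.sum_eq_single (dek k)]
    · rw [if_pos rfl]
      have e : monomial ((dek (d := d) k).1 - Finsupp.single t 1) (((dek (d := d) k).1 t : ℕ) : A n d) =
          (if t = k then (d : MvPolynomial (Fin n) (A n d)) * X k ^ (d - 1) else 0) := by
        by_cases h : t = k
        · subst h
          rw [if_pos rfl]
          have e1 : (dek (d := d) t).1 = Finsupp.single t d := rfl
          rw [e1, Finsupp.single_eq_same, ← Finsupp.single_tsub, monomial_eq, map_natCast]
          rw [Finsupp.prod_single_index]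
          simp
        · rw [if_neg h]
          have e1 : (dek (d := d) k).1 t = 0 := by
            change (Finsupp.single k d) t = 0
            rw [Finsupp.single_eq_of_ne h]
          rw [e1]
          simp
      rw [e]
    · intro α _ hα
      rw [if_neg hα, zero_mul]
    · intro h
      exact absurd (Finset.mem_univ _) h
  rw [h1]
  simp only [add_mul, Finset.sum_add_distrib]
  rw [h2, h3]

/-- The ideals generated by some variables and some partial derivatives. -/
noncomputable def KK (n d : ℕ) (S T : Set (Fin n)) : Ideal (MvPolynomial (Fin n) (A n d)) :=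
  Ideal.span (X '' S) ⊔ Ideal.span (dF n d '' T)

theorem nzd_dF (hd : 2 ≤ d) (S T : Set (Fin n)) (k : Fin n) (hk : k ∉ T)
    (h : NZD (KK n d S T) (X k)) : NZD (KK n d S T) (dF n d k) := by
  intro x hx
  -- the translation preserves the ideal
  have hmap : ∀ y ∈ KK n d S T, tr k y ∈ Ideal.map Polynomial.C (KK n d S T) := by
    intro y hy
    have : KK n d S T ≤ Ideal.comap (tr k) (Ideal.map Polynomial.C (KK n d S T)) := by
      refine sup_le ?_ ?_
      · rw [Ideal.span_le]
        rintro _ ⟨i, hi, rfl⟩
        change tr k (X i) ∈ Ideal.map Polynomial.C (KK n d S T)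
        rw [tr_X]
        exact Ideal.mem_map_of_mem _ (Ideal.mem_sup_left (Ideal.subset_span ⟨i, hi, rfl⟩))
      · rw [Ideal.span_le]
        rintro _ ⟨t, ht, rfl⟩
        change tr k (dF n d t) ∈ Ideal.map Polynomial.C (KK n d S T)
        rw [tr_dF, if_neg (by rintro rfl; exact hk ht)]
        simp only [map_zero, mul_zero, add_zero]
        exact Ideal.mem_map_of_mem _ (Ideal.mem_sup_right (Ideal.subset_span ⟨t, ht, rfl⟩))
    exact this hy
  have h1 := hmap _ hx
  rw [map_mul, tr_dF, if_pos rfl, Ideal.mem_map_C_iff] at h1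
  have hX : ∀ m, NZD (KK n d S T) (X k ^ m) := by
    intro m
    induction m with
    | zero => intro y hy; simpa using hy
    | succ m ih =>
      intro y hy
      apply ih
      apply h
      convert hy using 1
      ring
  have hl : NZD (KK n d S T) ((d : MvPolynomial (Fin n) (A n d)) * X k ^ (d - 1)) := by
    intro y hy
    apply hX (d - 1)
    have hdu : (C (C ((d : ℂ)⁻¹)) : MvPolynomial (Fin n) (A n d)) * (d : MvPolynomial (Fin n) (A n d)) = 1 := by
      have : (d : MvPolynomial (Fin n) (A n d)) = C (C (d : ℂ)) := by simp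
      rw [this, ← map_mul, ← map_mul, inv_mul_cancel₀]
      · simp
      · rw [Nat.cast_ne_zero]; omega
    have h2 := Ideal.mul_mem_left _ (C (C ((d : ℂ)⁻¹)) : MvPolynomial (Fin n) (A n d)) hy
    convert h2 using 1
    rw [← mul_assoc, ← mul_assoc, hdu, one_mul]
  have h2 := coeff_mem_of_mul _ _ _ hl _ h1 0
  rwa [tr_eval] at h2

theorem nzd_X_span (S : Set (Fin n)) (k : Fin n) (hk : k ∉ S) :
    NZD (Ideal.span (X '' S) : Ideal (MvPolynomial (Fin n) (A n d))) (X k) := by
  intro x hx
  rw [MvPolynomial.mem_ideal_span_X_image] at hx ⊢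
  intro m hm
  have h3 : m + Finsupp.single k 1 ∈ (X k * x).support := by
    rw [MvPolynomial.mem_support_iff, mul_comm, MvPolynomial.coeff_mul_X]
    exact MvPolynomial.mem_support_iff.1 hm
  obtain ⟨i, hi, hi2⟩ := hx _ h3
  refine ⟨i, hi, ?_⟩
  have hik : k ≠ i := by
    rintro rfl
    exact hk hi
  simpa [Finsupp.single_apply, hik] using hi2

theorem nzd_claims (hd : 2 ≤ d) (T : Finset (Fin n)) : ∀ S : Set (Fin n), Disjoint S (T : Set (Fin n)) →
    ∀ k, k ∉ S → k ∉ T → NZD (KK n d S T) (X k) ∧ NZD (KK n d S T) (dF n d k) := by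
  classical
  induction T using Finset.induction_on with
  | empty =>
    intro S _ k hk hkT
    have h1 : NZD (KK n d S (∅ : Finset (Fin n))) (X k) := by
      have : KK n d S (∅ : Finset (Fin n)) = Ideal.span (X '' S) := by
        simp [KK]
      rw [this]
      exact nzd_X_span S k hk
    exact ⟨h1, nzd_dF hd _ _ _ (by simpa using hkT) h1⟩
  | insert t T' ht ih =>
    intro S hS k hk hkT
    have e1 : KK n d S (insert t T' : Finset (Fin n)) = KK n d S T' ⊔ Ideal.span {dF n d t} := by
      unfold KK
      rw [Finset.coe_insert, Set.image_insert_eq, Ideal.span_insert, sup_assoc]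
      congr 1
      rw [sup_comm]
    have e2 : KK n d (insert k S) T' = KK n d S T' ⊔ Ideal.span {X k} := by
      unfold KK
      rw [Set.image_insert_eq, Ideal.span_insert]
      ac_rfl
    have hkt : k ≠ t := by
      rintro rfl
      exact hkT (Finset.mem_insert_self _ _)
    have hkT' : k ∉ T' := fun h => hkT (Finset.mem_insert_of_mem h)
    rw [Finset.coe_insert, Set.disjoint_insert_right] at hS
    have h1 := (ih S hS.2 k hk hkT').1
    have h2 : NZD (KK n d (insert k S) T') (dF n d t) := by
      refine (ih (insert k S) ?_ t ?_ ht).2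
      · rw [Set.disjoint_insert_left]
        exact ⟨by simpa using hkT', hS.2⟩
      · rw [Set.mem_insert_iff]
        push Not
        exact ⟨Ne.symm hkt, hS.1⟩
    rw [e2] at h2
    have h3 := h1.swap h2
    rw [← e1] at h3
    exact ⟨h3, nzd_dF hd _ _ _ (by simpa using hkT) h3⟩

end Pool.Agent.Q80.Disc
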