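import Pool.Agent.Q80.Disc.Generic

namespace Pool.Agent.Q80.Disc

open MvPolynomial Pool.Agent.Helper56.Disc

variable {n d : ℕ}

section general
variable {S : Type*} [CommRing S]

/-- the values at `z` of the partial derivatives of the form with coefficients `c` -/
noncomputable def vv (c : Mon n d → S) (z : Fin n → S) (i : Fin n) : S :=
  eval z (pderiv i (form c))

/-- the correction term -/
noncomputable def EE (c : Mon n d → S) (z : Fin n → S) (l : Fin n) : MvPolynomial (Fin n) S :=
  C ((d : S) * z l) * (X l ^ (d - 1) * ∑ i, C (vv c z i) * X i) -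
    C (((d - 1 : ℕ) : S) * ∑ i, vv c z i * z i) * X l ^ d

/-- a form all of whose partial derivatives vanish at `z` -/
noncomputable def GG (c : Mon n d → S) (z : Fin n → S) (l : Fin n) : MvPolynomial (Fin n) S :=
  C ((d : S) * z l ^ d) * form c - EE c z l

theorem vv_map {S' : Type*} [CommRing S'] (φ : S →+* S') (c : Mon n d → S) (z : Fin n → S)
    (i : Fin n) : φ (vv c z i) = vv (fun α => φ (c α)) (fun j => φ (z j)) i := by
  unfold vv
  rw [← map_form, pderiv_map, eval_map]
  change φ (eval₂ (RingHom.id S) z _) = _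
  rw [eval₂_comp_left]
  rfl

theorem GG_map {S' : Type*} [CommRing S'] (φ : S →+* S') (c : Mon n d → S) (z : Fin n → S)
    (l : Fin n) : map φ (GG c z l) = GG (fun α => φ (c α)) (fun j => φ (z j)) l := by
  unfold GG EE
  simp only [map_sub, map_mul, map_pow, map_C, map_X, map_sum, map_natCast, map_form, vv_map]

theorem EE_isHomogeneous (hd : 1 ≤ d) (c : Mon n d → S) (z : Fin n → S) (l : Fin n) :
    (EE c z l).IsHomogeneous d := by
  unfold EE
  refine IsHomogeneous.sub ?_ ?_
  · have h1 : (X l ^ (d - 1) * ∑ i, C (vv c z i) * X i : MvPolynomial (Fin n) S).IsHomogeneous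
      ((d - 1) + 1) := by
      refine (isHomogeneous_X_pow l _).mul (IsHomogeneous.sum _ _ _ fun i _ => ?_)
      have := (isHomogeneous_C (Fin n) (vv c z i)).mul (isHomogeneous_X S i)
      rwa [zero_add] at this
    have h2 := (isHomogeneous_C (Fin n) ((d : S) * z l)).mul h1
    rwa [zero_add, Nat.sub_add_cancel hd] at h2
  · have h2 := (isHomogeneous_C (Fin n) (((d - 1 : ℕ) : S) * ∑ i, vv c z i * z i)).mul
      (isHomogeneous_X_pow (R := S) l d)
    rwa [zero_add] at h2

theorem GG_isHomogeneous (hd : 1 ≤ d) (c : Mon n d → S) (z : Fin n → S) (l : Fin n) :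
    (GG c z l).IsHomogeneous d := by
  unfold GG
  refine IsHomogeneous.sub ?_ (EE_isHomogeneous hd c z l)
  have h2 := (isHomogeneous_C (Fin n) ((d : S) * z l ^ d)).mul (form_isHomogeneous c)
  rwa [zero_add] at h2

theorem eval_pderiv_GG (hd : 2 ≤ d) (c : Mon n d → S) (z : Fin n → S) (l i : Fin n) :
    eval z (pderiv i (GG c z l)) = 0 := by
  have e1 : pderiv i (∑ j, C (vv c z j) * X j : MvPolynomial (Fin n) S) = C (vv c z i) := by
    rw [map_sum, Finset.sum_eq_single i]
    · rw [pderiv_C_mul, pderiv_X_self, mul_one]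
    · intro j _ hj
      rw [pderiv_C_mul, pderiv_X_of_ne hj, mul_zero]
    · simp
  have e2 : eval z (∑ j, C (vv c z j) * X j : MvPolynomial (Fin n) S) = ∑ j, vv c z j * z j := by
    simp
  obtain ⟨m, rfl⟩ : ∃ m, d = m + 2 := ⟨d - 2, by omega⟩
  have h1 : m + 2 - 1 = m + 1 := by omega
  unfold GG EE
  simp only [map_sub]
  rw [h1, pderiv_C_mul, pderiv_C_mul,
    pderiv_C_mul, Derivation.leibniz, e1, Derivation.leibniz_pow, Derivation.leibniz_pow]
  by_cases hil : i = l
  · subst hil
    rw [pderiv_X_self]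
    simp only [smul_eq_mul, mul_one, nsmul_eq_mul, map_sub, map_mul, eval_C, map_add, map_pow,
      eval_X, e2, map_natCast, Nat.add_sub_cancel]
    have h3 : eval z (pderiv i (form c)) = vv c z i := rfl
    rw [h3]
    have h4 : m + 2 - 1 = m + 1 := by omega
    rw [h4]
    push_cast
    ring
  · rw [pderiv_X_of_ne (Ne.symm hil)]
    simp only [smul_eq_mul, mul_zero, nsmul_eq_mul, map_sub, map_mul, eval_C, map_add, map_pow,
      eval_X, map_natCast, add_zero, map_zero, sub_zero]
    have h3 : eval z (pderiv i (form c)) = vv c z i := rfl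
    rw [h3]
    ring

end general

/-- the point of the discriminant -/
noncomputable def bb (n d : ℕ) (l : Fin n) : Mon n d → MvPolynomial (Fin n) (A n d) :=
  cv (GG (fun α => C (X α)) X l)

/-- the ideal of the partial derivatives of the generic form -/
noncomputable def JJ (n d : ℕ) : Ideal (MvPolynomial (Fin n) (A n d)) :=
  Ideal.span (Set.range (dF n d))

theorem vv_generic (i : Fin n) : vv (fun α : Mon n d => (C (X α) : MvPolynomial (Fin n) (A n d)))
    X i = dF n d i := by
  unfold vv dF gen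
  rw [← map_form, pderiv_map, eval_map, eval₂_eta]

theorem bb_sub_mem (l : Fin n) (α : Mon n d) :
    (d : MvPolynomial (Fin n) (A n d)) * X l ^ d * C (X α) - bb n d l α ∈ JJ n d := by
  have h1 : (EE (fun α : Mon n d => (C (X α) : MvPolynomial (Fin n) (A n d))) X l) ∈
      (JJ n d).map C := by
    unfold EE
    have hv : ∀ i, vv (fun α : Mon n d => (C (X α) : MvPolynomial (Fin n) (A n d)))
        X i ∈ JJ n d := by
      intro i
      rw [vv_generic]
      exact Ideal.subset_span ⟨i, rfl⟩
    refine Ideal.sub_mem _ ?_ ?_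
    · refine Ideal.mul_mem_left _ _ (Ideal.mul_mem_left _ _ (Ideal.sum_mem _ fun i _ => ?_))
      exact Ideal.mul_mem_right _ _ (Ideal.mem_map_of_mem _ (hv i))
    · refine Ideal.mul_mem_right _ _ (Ideal.mem_map_of_mem _ ?_)
      exact Ideal.mul_mem_left _ _ (Ideal.sum_mem _ fun i _ => Ideal.mul_mem_right _ _ (hv i))
  rw [MvPolynomial.mem_map_C_iff] at h1
  have h2 := h1 α.1
  have h3 : bb n d l α = (d : MvPolynomial (Fin n) (A n d)) * X l ^ d * C (X α) -
      coeff α.1 (EE (fun α : Mon n d => (C (X α) : MvPolynomial (Fin n) (A n d))) X l) := by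
    unfold bb cv GG
    rw [coeff_sub, coeff_C_mul, coeff_form]
  rw [h3]
  simpa using h2

/-- vanishing of a polynomial in two groups of variables -/
theorem funext₂ {σ τ : Type*} (p : MvPolynomial σ (MvPolynomial τ ℂ))
    (h : ∀ (c : τ → ℂ) (z : σ → ℂ), eval z (map (eval c) p) = 0) : p = 0 := by
  ext1 m
  rw [coeff_zero]
  apply MvPolynomial.funext
  intro c
  have h1 : map (eval c) p = 0 := by
    apply MvPolynomial.funext
    intro z
    rw [h c z, map_zero]
  have h2 := congrArg (coeff m) h1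
  rw [coeff_map, coeff_zero] at h2
  rw [h2, map_zero]

/-- `Δ` vanishes at all degenerate forms -/
def VanishesOnDegenerate (Δ : MvPolynomial (Mon n d) ℂ) : Prop :=
  ∀ c : Mon n d → ℂ, ¬ Nondegenerate (form c) → eval c Δ = 0

theorem degenerate_GG (hn : 0 < n) (hd : 2 ≤ d) (c : Mon n d → ℂ) (z : Fin n → ℂ) (l : Fin n) :
    ¬ Nondegenerate (GG c z l) := by
  intro h
  by_cases hz : z = 0
  · have h0 : GG c z l = 0 := by
      have h1 : (0 : ℕ) < d := by omega
      subst hz
      unfold GG EE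
      simp [h1.ne']
    rw [h0] at h
    have h2 := h (fun _ => 1) (by intro i; simp)
    have h3 := congrFun h2 ⟨0, hn⟩
    simp at h3
  · exact hz (h z fun i => eval_pderiv_GG hd c z l i)

/-- substitution of `b` in `Δ` -/
theorem subst_bb (hn : 0 < n) (hd : 2 ≤ d) (Δ : MvPolynomial (Mon n d) ℂ)
    (hΔ : VanishesOnDegenerate Δ) (l : Fin n) :
    eval₂ ((C : A n d →+* MvPolynomial (Fin n) (A n d)).comp (C : ℂ →+* A n d)) (bb n d l) Δ = 0 := by
  apply funext₂
  intro c z
  set ψ : MvPolynomial (Fin n) (A n d) →+* ℂ := (eval z).comp (map (eval c)) with hψ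
  have h1 : eval z (map (eval c) (eval₂ ((C : A n d →+* MvPolynomial (Fin n) (A n d)).comp
      (C : ℂ →+* A n d)) (bb n d l) Δ)) = eval (fun α => ψ (bb n d l α)) Δ := by
    have e1 : eval z (map (eval c) (eval₂ ((C : A n d →+* MvPolynomial (Fin n) (A n d)).comp
      (C : ℂ →+* A n d)) (bb n d l) Δ)) = ψ (eval₂ ((C : A n d →+* MvPolynomial (Fin n) (A n d)).comp
      (C : ℂ →+* A n d)) (bb n d l) Δ) := rfl
    rw [e1, eval₂_comp_left]
    have e2 : ψ.comp ((C : A n d →+* MvPolynomial (Fin n) (A n d)).comp (C : ℂ →+* A n d)) =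
        RingHom.id ℂ := by
      ext r
      · simp [hψ]
    rw [e2]
    rfl
  rw [h1]
  apply hΔ
  have h2 : (fun α => ψ (bb n d l α)) = (cv (GG c z l) : Mon n d → ℂ) := by
    funext α
    have hX : ∀ j, ψ (X j) = z j := fun j => by simp [hψ]
    have hC : ∀ α, ψ (C (X α)) = c α := fun α => by simp [hψ]
    unfold bb cv
    rw [← coeff_map, GG_map]
    simp only [hX, hC]
  rw [h2, form_cv _ (GG_isHomogeneous (by omega) c z l)]
  exact degenerate_GG hn hd c z l

theorem eval₂_congr_mod {τ S : Type*} [CommRing S] (I : Ideal S) (f : ℂ →+* S) (b b' : τ → S)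
    (h : ∀ α, b α - b' α ∈ I) (p : MvPolynomial τ ℂ) : eval₂ f b p - eval₂ f b' p ∈ I := by
  rw [← Ideal.Quotient.eq, eval₂_comp_left, eval₂_comp_left]
  congr 1
  funext α
  exact Ideal.Quotient.eq.2 (h α)

theorem eval₂_smul_of_isHomogeneous {τ S : Type*} [CommRing S] (f : ℂ →+* S) (b : τ → S) (s : S)
    (D : ℕ) (p : MvPolynomial τ ℂ) (hp : p.IsHomogeneous D) :
    eval₂ f (fun α => s * b α) p = s ^ D * eval₂ f b p := by
  rw [eval₂_eq, eval₂_eq, Finset.mul_sum]
  apply Finset.sum_congr rfl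
  intro m hm
  have h1 : m.degree = D := degree_of_isHomogeneous hp (mem_support_iff.1 hm)
  simp only [mul_pow, Finset.prod_mul_distrib]
  rw [Finset.prod_pow_eq_pow_sum]
  have h2 : ∑ i ∈ m.support, m i = D := by
    rw [← h1, Finsupp.degree_apply]
  rw [h2]
  ring

theorem inertia_homogeneous (hn : 0 < n) (hd : 2 ≤ d) (Δ : MvPolynomial (Mon n d) ℂ)
    (hΔ : VanishesOnDegenerate Δ) (D : ℕ) (hD : Δ.IsHomogeneous D) (l : Fin n) :
    X l ^ (d * D) * (C Δ : MvPolynomial (Fin n) (A n d)) ∈ JJ n d := by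
  have h1 := eval₂_congr_mod (JJ n d) ((C : A n d →+* MvPolynomial (Fin n) (A n d)).comp
      (C : ℂ →+* A n d)) _ _ (bb_sub_mem (d := d) l) Δ
  rw [subst_bb hn hd Δ hΔ l, sub_zero, eval₂_smul_of_isHomogeneous _ _ _ D Δ hD] at h1
  have h2 : eval₂ ((C : A n d →+* MvPolynomial (Fin n) (A n d)).comp (C : ℂ →+* A n d))
      (fun α => C (X α)) Δ = C Δ := by
    have := eval₂_comp_left (C : A n d →+* MvPolynomial (Fin n) (A n d)) (C : ℂ →+* A n d) X Δ
    rw [eval₂_eta] at this
    rw [this]
    rfl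
  rw [h2] at h1
  have h3 := Ideal.mul_mem_left _ (C (C (((d : ℂ) ^ D)⁻¹)) : MvPolynomial (Fin n) (A n d)) h1
  have h4 : (C (C (((d : ℂ) ^ D)⁻¹)) : MvPolynomial (Fin n) (A n d)) * (d : MvPolynomial (Fin n) (A n d)) ^ D = 1 := by
    have : (d : MvPolynomial (Fin n) (A n d)) ^ D = C (C ((d : ℂ) ^ D)) := by simp
    rw [this, ← map_mul, ← map_mul, inv_mul_cancel₀]
    · simp
    · apply pow_ne_zero
      rw [Nat.cast_ne_zero]; omega
  convert h3 using 1
  rw [mul_pow, ← pow_mul]
  linear_combination (-(X l ^ (d * D) * C Δ)) * h4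

theorem vanishes_component (Δ : MvPolynomial (Mon n d) ℂ)
    (hΔ : VanishesOnDegenerate Δ) (k : ℕ) :
    VanishesOnDegenerate (homogeneousComponent k Δ) := by
  intro c hc
  have hall : ∀ t : ℂ, ¬ Nondegenerate (form (t • c)) := by
    intro t h
    apply hc
    intro z hz
    apply h
    intro i
    rw [form_smul, pderiv_C_mul, map_mul, hz i, mul_zero]
  set P : Polynomial ℂ := ∑ j ∈ Finset.range (Δ.totalDegree + 1),
    Polynomial.monomial j (eval c (homogeneousComponent j Δ)) with hP
  have h1 : P = 0 := by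
    apply Polynomial.funext
    intro t
    rw [Polynomial.eval_zero, hP, Polynomial.eval_finsetSum]
    have h2 : ∀ j, Polynomial.eval t (Polynomial.monomial j (eval c (homogeneousComponent j Δ))) =
        eval (t • c) (homogeneousComponent j Δ) := by
      intro j
      rw [Polynomial.eval_monomial]
      have := eval₂_smul_of_isHomogeneous (RingHom.id ℂ) c t j _
        (homogeneousComponent_isHomogeneous j Δ)
      rw [mul_comm]
      exact this.symm
    simp only [h2]
    rw [← map_sum, sum_homogeneousComponent]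
    exact hΔ _ (hall t)
  by_cases hk : k ∈ Finset.range (Δ.totalDegree + 1)
  · have h3 := congrArg (fun q => Polynomial.coeff q k) h1
    simp only [hP, Polynomial.finsetSum_coeff, Polynomial.coeff_monomial, Polynomial.coeff_zero] at h3
    rw [Finset.sum_ite_eq' _ k, if_pos hk] at h3
    exact h3
  · rw [homogeneousComponent_eq_zero, map_zero]
    rw [Finset.mem_range] at hk
    omega

theorem inertia (hn : 0 < n) (hd : 2 ≤ d) (Δ : MvPolynomial (Mon n d) ℂ)
    (hΔ : VanishesOnDegenerate Δ) : ∃ K : ℕ, ∀ l : Fin n,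
    X l ^ K * (C Δ : MvPolynomial (Fin n) (A n d)) ∈ JJ n d := by
  refine ⟨d * Δ.totalDegree, fun l => ?_⟩
  have h1 : (C Δ : MvPolynomial (Fin n) (A n d)) = ∑ j ∈ Finset.range (Δ.totalDegree + 1),
      C (homogeneousComponent j Δ) := by
    rw [← map_sum, sum_homogeneousComponent]
  rw [h1, Finset.mul_sum]
  refine Ideal.sum_mem _ fun j hj => ?_
  rw [Finset.mem_range] at hj
  have h2 := inertia_homogeneous hn hd _ (vanishes_component Δ hΔ j) j
    (homogeneousComponent_isHomogeneous j Δ) l
  have h3 : d * Δ.totalDegree = d * (Δ.totalDegree - j) + d * j := by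
    rw [← mul_add]; congr 1; omega
  rw [h3, pow_add, mul_assoc]
  exact Ideal.mul_mem_left _ _ h2

end Pool.Agent.Q80.Disc
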